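import Pool.Agent.H53.DF.Rotate

set_option autoImplicit false

/-!
# The (N+1)-swindle
-/

namespace Pool.Agent.H53.DF

open Filter Topology

variable {B : Type*} [CStarAlgebra B] [PartialOrder B] [StarOrderedRing B]

/-- matrix unit with coefficient, as an element of the C*-algebra of matrices. -/
def E {K : ℕ} (i j : Fin K) (x : B) : CStarMatrix (Fin K) (Fin K) B :=
  CStarMatrix.ofMatrix (Matrix.single i j x)

section E
variable {K : ℕ}

omit [PartialOrder B] [StarOrderedRing B] in
theorem E_mul_same (i j k : Fin K) (x y : B) : E i j x * E j k y = E i k (x * y) :=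
  Matrix.single_mul_single_same x i j k y

omit [PartialOrder B] [StarOrderedRing B] in
theorem E_mul_ne (i j k l : Fin K) (h : j ≠ k) (x y : B) : E i j x * E k l y = 0 :=
  Matrix.single_mul_single_of_ne x i j k h y

omit [PartialOrder B] [StarOrderedRing B] in
theorem star_E (i j : Fin K) (x : B) : star (E i j x) = E j i (star x) :=
  Matrix.conjTranspose_single i j x

omit [PartialOrder B] [StarOrderedRing B] in
theorem E_sub (i j : Fin K) (x y : B) : E i j (x - y) = E i j x - E i j y := by
  apply CStarMatrix.ext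
  intro a b
  simp only [E, CStarMatrix.sub_apply, CStarMatrix.ofMatrix_apply, Matrix.single_apply]
  split_ifs <;> simp

omit [PartialOrder B] [StarOrderedRing B] in
theorem E_apply (i j a b : Fin K) (x : B) : E i j x a b = if i = a ∧ j = b then x else 0 := by
  simp only [E, CStarMatrix.ofMatrix_apply, Matrix.single_apply]

/-- the corner embedding. -/
noncomputable def Ehom (i : Fin K) : B →⋆ₙₐ[ℂ] CStarMatrix (Fin K) (Fin K) B where
  toFun x := E i i x
  map_smul' c x := by
    apply CStarMatrix.ext
    intro a b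
    simp only [E_apply, CStarMatrix.smul_apply, MonoidHom.id_apply]
    split_ifs <;> simp
  map_zero' := by
    apply CStarMatrix.ext
    intro a b
    simp only [E_apply, CStarMatrix.zero_apply]
    split_ifs <;> simp
  map_add' x y := by
    apply CStarMatrix.ext
    intro a b
    simp only [E_apply, CStarMatrix.add_apply]
    split_ifs <;> simp
  map_mul' x y := (E_mul_same i i i x y).symm
  map_star' x := (star_E i i x).symm

theorem norm_E_le (i : Fin K) (x : B) : ‖E i i x‖ ≤ ‖x‖ :=
  NonUnitalStarAlgHom.norm_apply_le (Ehom i) x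

theorem E_nonneg (i : Fin K) (a : B) (ha : 0 ≤ a) : 0 ≤ E i i a := by
  obtain ⟨s, hs⟩ := CStarAlgebra.nonneg_iff_eq_star_mul_self.mp ha
  rw [hs, ← E_mul_same i i i, ← star_E]
  exact star_mul_self_nonneg _

end E

section main

/-- entries in a closed right ideal. -/
def EntIn {K : ℕ} (S : AddSubgroup B) (M : CStarMatrix (Fin K) (Fin K) B) : Prop :=
  ∀ i j, M i j ∈ S

omit [PartialOrder B] [StarOrderedRing B] in
theorem EntIn.add {K : ℕ} {S : AddSubgroup B} {M M' : CStarMatrix (Fin K) (Fin K) B}
    (h : EntIn S M) (h' : EntIn S M') : EntIn S (M + M') := fun i j => by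
  simpa using S.add_mem (h i j) (h' i j)

omit [PartialOrder B] [StarOrderedRing B] in
theorem EntIn.mul {K : ℕ} {S : AddSubgroup B} (hSr : ∀ s ∈ S, ∀ z, s * z ∈ S)
    {M : CStarMatrix (Fin K) (Fin K) B} (h : EntIn S M) (W : CStarMatrix (Fin K) (Fin K) B) :
    EntIn S (M * W) := fun i j => by
  rw [CStarMatrix.mul_apply]
  exact S.sum_mem fun k _ => hSr _ (h i k) _

omit [PartialOrder B] [StarOrderedRing B] in
theorem EntIn.E {K : ℕ} {S : AddSubgroup B} {x : B} (hx : x ∈ S) (i j : Fin K) :
    EntIn S (E i j x) := fun a b => by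
  rw [E_apply]
  split_ifs
  · exact hx
  · exact S.zero_mem

/-- row index. -/
def cc (n s : ℕ) : Fin (n + 2) := ⟨s % (n + 2), Nat.mod_lt _ (by omega)⟩

/-- column index. -/
def qq (n s : ℕ) : Fin (n + 2) := ⟨s % (n + 1), (Nat.mod_lt _ (by omega)).trans (by omega)⟩

theorem cc_ne {n s s' : ℕ} (h : s < s') (h' : s' < s + (n + 2)) : cc n s ≠ cc n s' := by
  intro he
  have h1 : s % (n + 2) = s' % (n + 2) := congrArg Fin.val he
  have h2 : (s' - s) % (n + 2) = 0 := by
    have : s ≡ s' [MOD (n + 2)] := h1
    exact (Nat.sub_mod_eq_zero_of_mod_eq h1.symm)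
  have h3 : (s' - s) % (n + 2) = s' - s := Nat.mod_eq_of_lt (by omega)
  omega

theorem qq_add (n s : ℕ) : qq n (s + (n + 1)) = qq n s := by
  apply Fin.ext
  simp [qq]

theorem sum_qq {M : Type*} [AddCommMonoid M] (n : ℕ) (f : Fin (n + 2) → M) (t : ℕ) :
    ∑ j ∈ Finset.range (n + 1), f (qq n (t + j)) = ∑ j ∈ Finset.range (n + 1), f (qq n j) := by
  induction t with
  | zero => simp
  | succ t ih =>
    rw [← ih, Finset.sum_range_succ, Finset.sum_range_succ']
    have h1 : qq n (t + 1 + n) = qq n (t + 0) := by
      rw [add_zero, ← qq_add n t]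
      congr 1
      ring
    rw [h1]
    congr 1
    apply Finset.sum_congr rfl
    intro j _
    congr 2
    ring

/-- **The swindle**, abstract form. -/
theorem swindle_abs (S : AddSubgroup B) (hS : IsClosed (S : Set B))
    (hSr : ∀ s ∈ S, ∀ z, s * z ∈ S) (a : B) (ha : 0 ≤ a)
    (hx : ∀ δ : ℝ, 0 < δ → ∃ x ∈ S, ‖star x * x - a‖ ≤ δ) (n : ℕ) :
    ∃ Y : CStarMatrix (Fin (n + 2)) (Fin (n + 2)) B, EntIn S Y ∧
      star Y * Y = ∑ j ∈ Finset.range (n + 1), E (qq n j) (qq n j) a := by
  -- tolerances
  set ε : ℕ → ℝ := fun t => ((1 / 2 : ℝ) ^ t / 4) ^ 2 / 2 with hε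
  have hεpos : ∀ t, 0 < ε t := fun t => by positivity
  have hεsqrt : ∀ t, 4 * √(2 * ε t) = (1 / 2 : ℝ) ^ t := by
    intro t
    have : 2 * ε t = ((1 / 2 : ℝ) ^ t / 4) ^ 2 := by rw [hε]; ring
    rw [this, Real.sqrt_sq (by positivity)]
    ring
  have hεanti : Antitone ε := by
    intro s t hst
    have : (1 / 2 : ℝ) ^ t ≤ (1 / 2 : ℝ) ^ s :=
      pow_le_pow_of_le_one (by norm_num) (by norm_num) hst
    simp only [hε]
    gcongr
  choose x hxS hxa using fun t => hx (ε t) (hεpos t)
  -- configuration
  set f : ℕ → CStarMatrix (Fin (n + 2)) (Fin (n + 2)) B := fun s => E (cc n s) (qq n s) (x s)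
    with hf
  set X : ℕ → CStarMatrix (Fin (n + 2)) (Fin (n + 2)) B :=
    fun t => ∑ j ∈ Finset.range (n + 1), f (t + j) with hX
  set R : ℕ → CStarMatrix (Fin (n + 2)) (Fin (n + 2)) B :=
    fun t => ∑ j ∈ Finset.range n, f (t + 1 + j) with hR
  have hX1 : ∀ t, X t = R t + f t := by
    intro t
    simp only [hX, hR]
    rw [Finset.sum_range_succ', add_zero]
    congr 1
    apply Finset.sum_congr rfl
    intro j _
    congr 1
    ring
  have hX2 : ∀ t, X (t + 1) = R t + f (t + (n + 1)) := by
    intro t
    simp only [hX, hR]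
    rw [Finset.sum_range_succ]
    congr 2
    ring
  have hff : ∀ s s', cc n s ≠ cc n s' → star (f s) * f s' = 0 := by
    intro s s' h
    simp only [hf]
    rw [star_E, E_mul_ne _ _ _ _ h]
  have hff' : ∀ s s', s < s' → s' < s + (n + 2) → star (f s) * f s' = 0 ∧ star (f s') * f s = 0 :=
    fun s s' h h' => ⟨hff _ _ (cc_ne h h'), hff _ _ (cc_ne h h').symm⟩
  have hfself : ∀ s, star (f s) * f s = E (qq n s) (qq n s) (star (x s) * x s) := by
    intro s
    simp only [hf]
    rw [star_E, E_mul_same]
  have hfR : ∀ t, star (f t) * R t = 0 := by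
    intro t
    simp only [hR]
    rw [Finset.mul_sum]
    apply Finset.sum_eq_zero
    intro j hj
    rw [Finset.mem_range] at hj
    exact (hff' t (t + 1 + j) (by omega) (by omega)).1
  have hfR' : ∀ t, star (f (t + (n + 1))) * R t = 0 := by
    intro t
    simp only [hR]
    rw [Finset.mul_sum]
    apply Finset.sum_eq_zero
    intro j hj
    rw [Finset.mem_range] at hj
    exact (hff' (t + 1 + j) (t + (n + 1)) (by omega) (by omega)).2
  -- rotations
  have hrot : ∀ t, ∃ U s s' : CStarMatrix (Fin (n + 2)) (Fin (n + 2)) B,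
      star U * U = 1 ∧ U * star U = 1 ∧ star U = 1 + f t * s + f (t + (n + 1)) * s' ∧
      (∀ v, star (f t) * v = 0 → star (f (t + (n + 1))) * v = 0 → U * v = v) ∧
      ‖U * f t - f (t + (n + 1))‖ ≤ 4 * √(2 * ε t) := by
    intro t
    apply rotation (E (qq n t) (qq n t) a) (E_nonneg _ a ha) (ε t) (hεpos t)
    · exact (hff' t (t + (n + 1)) (by omega) (by omega)).1
    · rw [hfself, ← E_sub]
      exact (norm_E_le _ _).trans (hxa t)
    · rw [hfself, qq_add, ← E_sub]
      exact (norm_E_le _ _).trans ((hxa _).trans (hεanti (by omega)))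
  choose U s s' hU1 hU2 hU3 hU4 hU5 using hrot
  -- the product
  set V : ℕ → CStarMatrix (Fin (n + 2)) (Fin (n + 2)) B :=
    fun t => Nat.rec 1 (fun t W => W * star (U t)) t with hV
  have hV0 : V 0 = 1 := rfl
  have hVs : ∀ t, V (t + 1) = V t * star (U t) := fun t => rfl
  have hVV : ∀ t, star (V t) * V t = 1 := by
    intro t
    induction t with
    | zero => rw [hV0]; simp
    | succ t ih =>
      rw [hVs, star_mul, star_star]
      calc U t * star (V t) * (V t * star (U t)) = U t * (star (V t) * V t) * star (U t) := by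
            noncomm_ring
        _ = 1 := by rw [ih, mul_one, hU2]
  have hnormV : ∀ t z, ‖V t * z‖ = ‖z‖ := by
    intro t z
    have h : ‖V t * z‖ * ‖V t * z‖ = ‖z‖ * ‖z‖ := by
      rw [← CStarRing.norm_star_mul_self, ← CStarRing.norm_star_mul_self, star_mul]
      congr 1
      calc star z * star (V t) * (V t * z) = star z * (star (V t) * V t) * z := by noncomm_ring
        _ = star z * z := by rw [hVV, mul_one]
    nlinarith [norm_nonneg (V t * z), norm_nonneg z]
  -- differences
  have hdiff : ∀ t, dist (V t * X t) (V (t + 1) * X (t + 1)) ≤ 1 * (1 / 2 : ℝ) ^ t := by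
    intro t
    rw [dist_comm, dist_eq_norm, one_mul, ← hεsqrt t]
    have e1 : V (t + 1) * X (t + 1) - V t * X t =
        V (t + 1) * (f (t + (n + 1)) - U t * f t) := by
      have e2 : V t = V (t + 1) * U t := by
        rw [hVs, mul_assoc, hU1, mul_one]
      have e3 : U t * X t = R t + U t * f t := by
        rw [hX1, mul_add, hU4 t (R t) (hfR t) (hfR' t)]
      calc V (t + 1) * X (t + 1) - V t * X t
          = V (t + 1) * X (t + 1) - V (t + 1) * (U t * X t) := by
            conv_lhs => rw [e2]
            rw [mul_assoc (V (t + 1)) (U t) (X t)]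
        _ = V (t + 1) * (X (t + 1) - U t * X t) := by rw [mul_sub]
        _ = _ := by rw [e3, hX2]; congr 1; abel
    rw [e1]
    refine (hnormV (t + 1) _).le.trans ?_
    rw [norm_sub_rev]
    exact hU5 t
  have hcau : CauchySeq (fun t => V t * X t) :=
    cauchySeq_of_le_geometric (1 / 2) 1 (by norm_num) hdiff
  obtain ⟨Y, hY⟩ := cauchySeq_tendsto_of_complete hcau
  refine ⟨Y, ?_, ?_⟩
  · -- membership
    have hfS : ∀ s, EntIn S (f s) := fun s => EntIn.E (hxS s) _ _
    have hUz : ∀ t z, EntIn S z → EntIn S (star (U t) * z) := by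
      intro t z hz
      rw [hU3]
      have : (1 + f t * s t + f (t + (n + 1)) * s' t) * z =
          z + f t * (s t * z) + f (t + (n + 1)) * (s' t * z) := by noncomm_ring
      rw [this]
      exact (hz.add ((hfS _).mul hSr _)).add ((hfS _).mul hSr _)
    have hVz : ∀ t z, EntIn S z → EntIn S (V t * z) := by
      intro t
      induction t with
      | zero => intro z hz; rw [hV0, one_mul]; exact hz
      | succ t ih =>
        intro z hz
        rw [hVs, mul_assoc]
        exact ih _ (hUz t z hz)
    have hXS : ∀ t, EntIn S (X t) := by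
      intro t i j
      simp only [hX]
      have : (∑ j ∈ Finset.range (n + 1), f (t + j)) i j =
          ∑ k ∈ Finset.range (n + 1), f (t + k) i j := by
        induction Finset.range (n + 1) using Finset.induction_on with
        | empty => simp
        | insert k s hk ih => rw [Finset.sum_insert hk, Finset.sum_insert hk, CStarMatrix.add_apply, ih]
      rw [this]
      exact S.sum_mem fun k _ => hfS _ i j
    intro i j
    have hc : Tendsto (fun t => (V t * X t) i j) atTop (𝓝 (Y i j)) := by
      rw [tendsto_iff_norm_sub_tendsto_zero] at hY ⊢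
      refine squeeze_zero (fun _ => norm_nonneg _) (fun t => ?_) hY
      exact CStarMatrix.norm_entry_le_norm (M := V t * X t - Y) (i := i) (j := j)
    exact hS.mem_of_tendsto hc (Eventually.of_forall fun t => hVz t _ (hXS t) i j)
  · -- Gram matrix
    have h1 : Tendsto (fun t => star (V t * X t) * (V t * X t)) atTop (𝓝 (star Y * Y)) :=
      (hY.star).mul hY
    have h2 : ∀ t, star (V t * X t) * (V t * X t) =
        ∑ j ∈ Finset.range (n + 1), E (qq n (t + j)) (qq n (t + j)) (star (x (t + j)) * x (t + j)) := by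
      intro t
      rw [star_mul]
      have : star (X t) * star (V t) * (V t * X t) = star (X t) * X t := by
        calc star (X t) * star (V t) * (V t * X t) = star (X t) * (star (V t) * V t) * X t := by
              noncomm_ring
          _ = _ := by rw [hVV, mul_one]
      rw [this]
      simp only [hX]
      rw [star_sum, Finset.sum_mul]
      apply Finset.sum_congr rfl
      intro j hj
      rw [Finset.mem_range] at hj
      rw [Finset.mul_sum, Finset.sum_eq_single j]
      · rw [hfself]
      · intro k hk hkj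
        rw [Finset.mem_range] at hk
        rcases lt_or_gt_of_ne hkj with h | h
        · exact (hff' (t + k) (t + j) (by omega) (by omega)).2
        · exact (hff' (t + j) (t + k) (by omega) (by omega)).1
      · intro h
        exact absurd (Finset.mem_range.mpr hj) h
    have h3 : Tendsto (fun t => star (V t * X t) * (V t * X t)) atTop
        (𝓝 (∑ j ∈ Finset.range (n + 1), E (qq n j) (qq n j) a)) := by
      rw [tendsto_iff_norm_sub_tendsto_zero]
      have hlim : Tendsto (fun t => ∑ j ∈ Finset.range (n + 1), ε (t + j)) atTop (𝓝 0) := by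
        rw [show (0 : ℝ) = ∑ j ∈ Finset.range (n + 1), 0 by simp]
        apply tendsto_finsetSum
        intro j _
        have : Tendsto ε atTop (𝓝 0) := by
          have h0 : Tendsto (fun t : ℕ => ((1 / 2 : ℝ) ^ t / 4) ^ 2 / 2) atTop
              (𝓝 ((0 / 4) ^ 2 / 2)) := by
            apply Tendsto.div_const
            apply Tendsto.pow
            apply Tendsto.div_const
            exact tendsto_pow_atTop_nhds_zero_of_lt_one (by norm_num) (by norm_num)
          simpa [hε] using h0
        exact this.comp (tendsto_add_atTop_nat j)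
      refine squeeze_zero (fun _ => norm_nonneg _) (fun t => ?_) hlim
      rw [h2, ← sum_qq n (fun i => E i i a) t, ← Finset.sum_sub_distrib]
      refine (norm_sum_le _ _).trans ?_
      apply Finset.sum_le_sum
      intro j _
      rw [← E_sub]
      exact (norm_E_le _ _).trans (hxa _)
    exact tendsto_nhds_unique h1 h3

end main

end Pool.Agent.H53.DF
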