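import Mathlib

set_option autoImplicit false

/-!
# The rotation lemma (Cayley unitaries) in a unital C*-algebra
-/

namespace Pool.Agent.H53.DF

variable {B : Type*} [CStarAlgebra B] [PartialOrder B] [StarOrderedRing B]

/-- resolvent of a positive element. -/
theorem exists_resolvent (p : B) (hp : 0 ≤ p) (ε : ℝ) (hε : 0 < ε) :
    ∃ q : B, star q = q ∧ q * p = p * q ∧ q * p + ε • q = 1 ∧ ‖q‖ ≤ ε⁻¹ ∧ ‖p * q‖ ≤ 1 := by
  have hsp : ∀ x ∈ spectrum ℝ p, 0 ≤ x := fun x hx => spectrum_nonneg_of_nonneg hp hx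
  have hsa : IsSelfAdjoint p := IsSelfAdjoint.of_nonneg hp
  have hcont : ContinuousOn (fun t : ℝ => (t + ε)⁻¹) (spectrum ℝ p) := by
    apply ContinuousOn.inv₀ (by fun_prop)
    intro x hx
    have := hsp x hx
    positivity
  have hid : cfc (fun t : ℝ => t) p = p := cfc_id' ℝ p
  have e1 : cfc (fun t : ℝ => (t + ε)⁻¹) p * p = cfc (fun t : ℝ => (t + ε)⁻¹ * t) p := by
    rw [cfc_mul (fun t : ℝ => (t + ε)⁻¹) (fun t => t) p hcont continuousOn_id, hid]
  have e2 : p * cfc (fun t : ℝ => (t + ε)⁻¹) p = cfc (fun t : ℝ => t * (t + ε)⁻¹) p := by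
    rw [cfc_mul (fun t => t) (fun t : ℝ => (t + ε)⁻¹) p continuousOn_id hcont, hid]
  refine ⟨cfc (fun t : ℝ => (t + ε)⁻¹) p, ?_, ?_, ?_, ?_, ?_⟩
  · exact (cfc_predicate (fun t : ℝ => (t + ε)⁻¹) p : IsSelfAdjoint _)
  · rw [e1, e2]
    congr 1
    ext t
    ring
  · rw [e1, ← cfc_smul ε (fun t : ℝ => (t + ε)⁻¹) p hcont,
      ← cfc_add (a := p) (fun t : ℝ => (t + ε)⁻¹ * t) (fun t : ℝ => ε • (t + ε)⁻¹)
        (hcont.mul continuousOn_id) (hcont.const_smul ε), ← cfc_one ℝ p]
    apply cfc_congr
    intro t ht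
    have := hsp t ht
    have h2 : t + ε ≠ 0 := by positivity
    simp only [smul_eq_mul, Pi.one_apply]
    field_simp
  · apply norm_cfc_le (by positivity)
    intro t ht
    have := hsp t ht
    rw [Real.norm_of_nonneg (by positivity)]
    gcongr
    linarith
  · rw [e2]
    apply norm_cfc_le (by positivity)
    intro t ht
    have := hsp t ht
    rw [Real.norm_of_nonneg (by positivity), ← div_eq_mul_inv, div_le_one (by positivity)]
    linarith

/-- the Cayley transform of a skew-adjoint element. -/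
theorem exists_cayley (Z : B) (hZ : star Z = -Z) :
    ∃ M : B, (1 - Z) * M = 1 ∧ M * (1 - Z) = 1 ∧ ‖M‖ ≤ 1 ∧ Z * M = M * Z ∧
      star M * (1 + Z) = 1 ∧ (1 + Z) * star M = 1 := by
  have hg : 0 ≤ star Z * Z := star_mul_self_nonneg Z
  obtain ⟨H, hH1, hH2, hH3, hH4, -⟩ := exists_resolvent (star Z * Z) hg 1 one_pos
  rw [one_smul, hZ] at hH3
  rw [hZ] at hH2
  have hZH : Z * H = H * Z := by
    have k1 : H * (1 - Z * Z) = 1 := by
      calc H * (1 - Z * Z) = H * (-Z * Z) + H := by noncomm_ring
        _ = 1 := hH3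
    have k2 : (1 - Z * Z) * H = 1 := by
      calc (1 - Z * Z) * H = (-Z * Z * H) + H := by noncomm_ring
        _ = H * (-Z * Z) + H := by rw [hH2]
        _ = 1 := hH3
    calc Z * H = (H * (1 - Z * Z)) * (Z * H) := by rw [k1, one_mul]
      _ = H * Z * ((1 - Z * Z) * H) := by noncomm_ring
      _ = H * Z := by rw [k2, mul_one]
  have k1 : H - H * Z * Z = 1 := by
    calc H - H * Z * Z = H * (-Z * Z) + H := by noncomm_ring
      _ = 1 := hH3
  have hZHZ : Z * H * Z = H * Z * Z := by rw [hZH]
  refine ⟨(1 + Z) * H, ?_, ?_, ?_, ?_, ?_, ?_⟩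
  · calc (1 - Z) * ((1 + Z) * H) = H - Z * (Z * H) := by noncomm_ring
      _ = H - Z * (H * Z) := by rw [hZH]
      _ = H - Z * H * Z := by noncomm_ring
      _ = H - H * Z * Z := by rw [hZH]
      _ = 1 := k1
  · calc (1 + Z) * H * (1 - Z) = H - H * Z + Z * H - Z * H * Z := by noncomm_ring
      _ = H - H * Z * Z := by rw [hZHZ, hZH]; noncomm_ring
      _ = 1 := k1
  · have h2 : star ((1 + Z) * H) * ((1 + Z) * H) = H := by
      rw [star_mul, star_add, star_one, hZ, hH1]
      calc H * (1 + -Z) * ((1 + Z) * H) = H * (H - Z * (Z * H)) := by noncomm_ring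
        _ = H * (H - Z * (H * Z)) := by rw [hZH]
        _ = H * (H - Z * H * Z) := by noncomm_ring
        _ = H * (H - H * Z * Z) := by rw [hZH]
        _ = H := by rw [k1, mul_one]
    have h3 : ‖(1 + Z) * H‖ * ‖(1 + Z) * H‖ ≤ 1 := by
      rw [← CStarRing.norm_star_mul_self, h2]
      simpa using hH4
    nlinarith [norm_nonneg ((1 + Z) * H)]
  · calc Z * ((1 + Z) * H) = Z * H + Z * (Z * H) := by noncomm_ring
      _ = (1 + Z) * (Z * H) := by noncomm_ring
      _ = (1 + Z) * (H * Z) := by rw [hZH]
      _ = (1 + Z) * H * Z := by noncomm_ring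
  · rw [star_mul, star_add, star_one, hZ, hH1]
    calc H * (1 + -Z) * (1 + Z) = H - H * Z * Z := by noncomm_ring
      _ = 1 := k1
  · rw [star_mul, star_add, star_one, hZ, hH1]
    calc (1 + Z) * (H * (1 + -Z)) = H - H * Z + Z * H - Z * H * Z := by noncomm_ring
      _ = H - H * Z * Z := by rw [hZHZ, hZH]; noncomm_ring
      _ = 1 := k1

/-- **Rotation lemma.** -/
theorem rotation (p : B) (hp : 0 ≤ p) (ε : ℝ) (hε : 0 < ε) (x y : B)
    (hxy : star x * y = 0) (hx : ‖star x * x - p‖ ≤ ε) (hy : ‖star y * y - p‖ ≤ ε) :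
    ∃ U s t : B, star U * U = 1 ∧ U * star U = 1 ∧ star U = 1 + x * s + y * t ∧
      (∀ v, star x * v = 0 → star y * v = 0 → U * v = v) ∧
      ‖U * x - y‖ ≤ 4 * √(2 * ε) := by
  obtain ⟨q, hq1, hq2, hq3, hq4, hq5⟩ := exists_resolvent p hp ε hε
  have hyx : star y * x = 0 := by
    have := congrArg star hxy
    simpa using this
  set Z : B := y * q * star x - x * q * star y with hZdef
  have hZ : star Z = -Z := by
    rw [hZdef]
    simp only [star_sub, star_mul, star_star, hq1]
    noncomm_ring
  obtain ⟨M, hM1, hM2, hM3, hM4, hM5, hM6⟩ := exists_cayley Z hZ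
  have hZx : Z * x = y * (q * (star x * x)) := by
    rw [hZdef]
    calc (y * q * star x - x * q * star y) * x
        = y * (q * (star x * x)) - x * q * (star y * x) := by noncomm_ring
      _ = _ := by rw [hyx]; simp
  have hZy : Z * y = -(x * (q * (star y * y))) := by
    rw [hZdef]
    calc (y * q * star x - x * q * star y) * y
        = y * q * (star x * y) - x * (q * (star y * y)) := by noncomm_ring
      _ = _ := by rw [hxy]; simp
  have hsU : star ((1 + Z) * M) = (1 - Z) * star M := by
    rw [star_mul, star_add, star_one, hZ]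
    have : Z * star M = star M * Z := by
      have := congrArg star hM4
      rw [star_mul, star_mul, hZ] at this
      have h2 : star M * Z = Z * star M := by
        have h3 := congrArg Neg.neg this
        simpa using h3
      exact h2.symm
    rw [sub_mul, this]
    noncomm_ring
  have hcomm : star M * Z = Z * star M := by
    have := congrArg star hM4
    rw [star_mul, star_mul, hZ] at this
    have h3 := congrArg Neg.neg this
    simpa using h3
  refine ⟨(1 + Z) * M, -2 * (-(q * star y) * star M), -2 * ((q * star x) * star M), ?_, ?_, ?_, ?_, ?_⟩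
  · rw [hsU]
    calc (1 - Z) * star M * ((1 + Z) * M) = (1 - Z) * (star M * (1 + Z)) * M := by noncomm_ring
      _ = 1 := by rw [hM5, mul_one, hM1]
  · rw [hsU]
    calc (1 + Z) * M * ((1 - Z) * star M) = (1 + Z) * (M * (1 - Z)) * star M := by noncomm_ring
      _ = 1 := by rw [hM2, mul_one, hM6]
  · rw [hsU]
    have e1 : (1 - Z) * star M = (1 + Z) * star M - 2 * (Z * star M) := by noncomm_ring
    rw [e1, hM6, hZdef]
    noncomm_ring
  · intro v hxv hyv
    have hZv : Z * v = 0 := by
      rw [hZdef]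
      calc (y * q * star x - x * q * star y) * v
          = y * q * (star x * v) - x * q * (star y * v) := by noncomm_ring
        _ = 0 := by rw [hxv, hyv]; simp
    have hMv : M * v = v := by
      calc M * v = M * ((1 - Z) * v) := by rw [sub_mul, one_mul, hZv, sub_zero]
        _ = v := by rw [← mul_assoc, hM2, one_mul]
    rw [mul_assoc, hMv, add_mul, one_mul, hZv, add_zero]
  · -- norm estimate
    have key : (1 + Z) * M * x - y =
        M * (x * (1 - q * (star y * y)) - y * (1 - q * (star x * x))) := by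
      have e1 : (1 + Z) * M = M * (1 + Z) := by
        rw [add_mul, mul_add, hM4]; simp
      have e2 : y = M * ((1 - Z) * y) := by rw [← mul_assoc, hM2, one_mul]
      calc (1 + Z) * M * x - y = M * (1 + Z) * x - M * ((1 - Z) * y) := by rw [e1, ← e2]
        _ = M * ((x + Z * x) - (y - Z * y)) := by noncomm_ring
        _ = _ := by rw [hZx, hZy]; noncomm_ring
    have est : ∀ u v : B, ‖star u * u - p‖ ≤ ε → ‖star v * v - p‖ ≤ ε →
        ‖u * (1 - q * (star v * v))‖ ≤ 2 * √(2 * ε) := by
      intro u v hu hv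
      have h1 : 1 - q * (star v * v) = ε • q - q * (star v * v - p) := by
        rw [← hq3]
        noncomm_ring
      have h2 : ‖u * q‖ ^ 2 ≤ 2 / ε := by
        have e : star (u * q) * (u * q) = q * (p * q) + q * ((star u * u - p) * q) := by
          rw [star_mul, hq1]; noncomm_ring
        rw [sq, ← CStarRing.norm_star_mul_self, e]
        calc ‖q * (p * q) + q * ((star u * u - p) * q)‖
            ≤ ‖q‖ * ‖p * q‖ + ‖q‖ * (‖star u * u - p‖ * ‖q‖) := by
              refine (norm_add_le _ _).trans ?_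
              gcongr
              · exact norm_mul_le _ _
              · refine (norm_mul_le _ _).trans ?_
                gcongr
                exact norm_mul_le _ _
          _ ≤ ε⁻¹ * 1 + ε⁻¹ * (ε * ε⁻¹) := by gcongr
          _ = 2 / ε := by field_simp; norm_num
      have h3 : ‖u * q‖ ≤ √(2 / ε) := Real.le_sqrt_of_sq_le h2
      rw [h1, mul_sub, mul_smul_comm, ← mul_assoc]
      have h4 : √(2 / ε) * ε = √(2 * ε) := by
        have : ε = √(ε ^ 2) := (Real.sqrt_sq hε.le).symm
        conv_lhs => rw [this]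
        rw [← Real.sqrt_mul (by positivity)]
        congr 1
        rw [Real.sqrt_sq hε.le]
        field_simp
      calc ‖ε • (u * q) - u * q * (star v * v - p)‖
          ≤ ‖ε • (u * q)‖ + ‖u * q‖ * ‖star v * v - p‖ := by
            refine (norm_sub_le _ _).trans ?_
            gcongr
            exact norm_mul_le _ _
        _ ≤ ε * √(2 / ε) + √(2 / ε) * ε := by
            rw [norm_smul, Real.norm_of_nonneg hε.le]
            gcongr
        _ = 2 * √(2 * ε) := by rw [mul_comm ε, h4]; ring
    rw [key]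
    calc ‖M * (x * (1 - q * (star y * y)) - y * (1 - q * (star x * x)))‖
        ≤ 1 * ‖x * (1 - q * (star y * y)) - y * (1 - q * (star x * x))‖ := by
          refine (norm_mul_le _ _).trans ?_
          gcongr
      _ ≤ 1 * (2 * √(2 * ε) + 2 * √(2 * ε)) := by
          gcongr
          refine (norm_sub_le _ _).trans ?_
          exact add_le_add (est x y hx hy) (est y x hy hx)
      _ = 4 * √(2 * ε) := by ring

end Pool.Agent.H53.DF
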