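import Pool.Agent.H53.DF.Base
import Pool.Agent.H53.DF.Rotate

set_option autoImplicit false

/-!
# Approximation lemmas for rectangular matrices over a unital C*-algebra
-/

namespace Pool.Agent.H53.DF

open scoped Matrix
open Topology Filter

variable {A : Type} [CStarAlgebra A]

section entries

variable {ι κ : Type} [Fintype ι] [Fintype κ]

/-- an entry is controlled by the Gram matrix. -/
theorem norm_entry_sq_le (w : Matrix ι κ A) (i : ι) (j : κ) : ‖w i j‖ ^ 2 ≤ ‖(wᴴ * w) j j‖ := by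
  let _ := CStarAlgebra.spectralOrder A
  have _ := CStarAlgebra.spectralOrderedRing A
  have h1 : star (w i j) * w i j ≤ (wᴴ * w) j j := by
    rw [Matrix.mul_apply]
    simp only [Matrix.conjTranspose_apply]
    exact Finset.single_le_sum (f := fun i => star (w i j) * w i j)
      (fun k _ => star_mul_self_nonneg (w k j)) (Finset.mem_univ i)
  rw [sq, ← CStarRing.norm_star_mul_self]
  exact CStarAlgebra.norm_le_norm_of_nonneg_of_le (star_mul_self_nonneg _) h1

end entries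

/-- resolvent with square root, for matrices. -/
theorem exists_sqrt_resolvent {B : Type*} [CStarAlgebra B] [PartialOrder B] [StarOrderedRing B]
    (p : B) (hp : 0 ≤ p) (ε : ℝ) (hε : 0 < ε) :
    ∃ s : B, star s = s ∧ s * p * s + ε • (s * s) = 1 ∧ ‖s * p * s‖ ≤ 1 ∧ ‖s * s‖ ≤ ε⁻¹ ∧
      p * (s * s) = s * p * s ∧ (s * s) * p = s * p * s ∧ ‖(s * s) * p * (s * s)‖ ≤ ε⁻¹ := by
  have hsp : ∀ x ∈ spectrum ℝ p, 0 ≤ x := fun x hx => spectrum_nonneg_of_nonneg hp hx
  have hsa : IsSelfAdjoint p := IsSelfAdjoint.of_nonneg hp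
  have hcont : ContinuousOn (fun t : ℝ => (√(t + ε))⁻¹) (spectrum ℝ p) := by
    apply ContinuousOn.inv₀ (by fun_prop)
    intro x hx
    have := hsp x hx
    positivity
  have hid : cfc (fun t : ℝ => t) p = p := cfc_id' ℝ p
  have hc1 : ContinuousOn (fun t : ℝ => (√(t + ε))⁻¹ * (√(t + ε))⁻¹) (spectrum ℝ p) :=
    hcont.mul hcont
  have hc2 : ContinuousOn (fun t : ℝ => (√(t + ε))⁻¹ * t) (spectrum ℝ p) :=
    hcont.mul continuousOn_id
  have hc3 : ContinuousOn (fun t : ℝ => (√(t + ε))⁻¹ * t * (√(t + ε))⁻¹) (spectrum ℝ p) :=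
    hc2.mul hcont
  have ess : cfc (fun t : ℝ => (√(t + ε))⁻¹) p * cfc (fun t : ℝ => (√(t + ε))⁻¹) p =
      cfc (fun t : ℝ => (√(t + ε))⁻¹ * (√(t + ε))⁻¹) p := by
    rw [cfc_mul (fun t : ℝ => (√(t + ε))⁻¹) (fun t : ℝ => (√(t + ε))⁻¹) p hcont hcont]
  have esps : cfc (fun t : ℝ => (√(t + ε))⁻¹) p * p * cfc (fun t : ℝ => (√(t + ε))⁻¹) p =
      cfc (fun t : ℝ => (√(t + ε))⁻¹ * t * (√(t + ε))⁻¹) p := by
    rw [cfc_mul (fun t : ℝ => (√(t + ε))⁻¹ * t) (fun t : ℝ => (√(t + ε))⁻¹) p hc2 hcont,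
      cfc_mul (fun t : ℝ => (√(t + ε))⁻¹) (fun t : ℝ => t) p hcont continuousOn_id, hid]
  have epss : p * (cfc (fun t : ℝ => (√(t + ε))⁻¹) p * cfc (fun t : ℝ => (√(t + ε))⁻¹) p) =
      cfc (fun t : ℝ => t * ((√(t + ε))⁻¹ * (√(t + ε))⁻¹)) p := by
    rw [ess, cfc_mul (fun t : ℝ => t) (fun t : ℝ => (√(t + ε))⁻¹ * (√(t + ε))⁻¹) p
      continuousOn_id hc1, hid]
  have essp : (cfc (fun t : ℝ => (√(t + ε))⁻¹) p * cfc (fun t : ℝ => (√(t + ε))⁻¹) p) * p =
      cfc (fun t : ℝ => ((√(t + ε))⁻¹ * (√(t + ε))⁻¹) * t) p := by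
    rw [ess, cfc_mul (fun t : ℝ => (√(t + ε))⁻¹ * (√(t + ε))⁻¹) (fun t : ℝ => t) p
      hc1 continuousOn_id, hid]
  have hsq : ∀ t : ℝ, 0 ≤ t → (√(t + ε))⁻¹ * (√(t + ε))⁻¹ = (t + ε)⁻¹ := by
    intro t ht
    rw [← mul_inv, Real.mul_self_sqrt (by positivity)]
  have n1 : ‖cfc (fun t : ℝ => (√(t + ε))⁻¹) p * p * cfc (fun t : ℝ => (√(t + ε))⁻¹) p‖ ≤ 1 := by
    rw [esps]
    apply norm_cfc_le (by positivity)
    intro t ht
    have h0 := hsp t ht
    rw [Real.norm_of_nonneg (by positivity), mul_right_comm, hsq t h0, inv_mul_le_one₀ (by positivity)]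
    linarith
  have n2 : ‖cfc (fun t : ℝ => (√(t + ε))⁻¹) p * cfc (fun t : ℝ => (√(t + ε))⁻¹) p‖ ≤ ε⁻¹ := by
    rw [ess]
    apply norm_cfc_le (by positivity)
    intro t ht
    have h0 := hsp t ht
    rw [hsq t h0, Real.norm_of_nonneg (by positivity)]
    gcongr
    linarith
  have n3 : (cfc (fun t : ℝ => (√(t + ε))⁻¹) p * cfc (fun t : ℝ => (√(t + ε))⁻¹) p) * p =
      cfc (fun t : ℝ => (√(t + ε))⁻¹) p * p * cfc (fun t : ℝ => (√(t + ε))⁻¹) p := by
    rw [essp, esps]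
    congr 1
    ext t
    ring
  refine ⟨cfc (fun t : ℝ => (√(t + ε))⁻¹) p, ?_, ?_, n1, n2, ?_, n3, ?_⟩
  · exact (cfc_predicate (fun t : ℝ => (√(t + ε))⁻¹) p : IsSelfAdjoint _)
  · rw [esps, ess, ← cfc_smul ε (fun t : ℝ => (√(t + ε))⁻¹ * (√(t + ε))⁻¹) p hc1,
      ← cfc_add (a := p) (fun t : ℝ => (√(t + ε))⁻¹ * t * (√(t + ε))⁻¹)
        (fun t : ℝ => ε • ((√(t + ε))⁻¹ * (√(t + ε))⁻¹)) hc3 (hc1.const_smul ε), ← cfc_one ℝ p]
    apply cfc_congr
    intro t ht
    have h0 := hsp t ht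
    have h2 : t + ε ≠ 0 := by positivity
    simp only [smul_eq_mul, Pi.one_apply]
    rw [mul_right_comm, hsq t h0]
    field_simp
  · rw [epss, esps]
    congr 1
    ext t
    ring
  · rw [n3]
    refine (norm_mul_le _ _).trans ?_
    calc _ ≤ 1 * ε⁻¹ := mul_le_mul n1 n2 (norm_nonneg _) zero_le_one
      _ = ε⁻¹ := one_mul _

/-- square roots. -/
theorem exists_sqrt_abs {B : Type*} [CStarAlgebra B] [PartialOrder B] [StarOrderedRing B]
    (p : B) (hp : 0 ≤ p) : ∃ c : B, star c = c ∧ p = c * c :=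
  ⟨CFC.sqrt p, (IsSelfAdjoint.of_nonneg (CFC.sqrt_nonneg p)).star_eq,
    (CFC.sqrt_mul_sqrt_self p hp).symm⟩

section matrices

instance {ι κ : Type} [Countable ι] [Countable κ] {A : Type} [TopologicalSpace A]
    [FirstCountableTopology A] : FirstCountableTopology (Matrix ι κ A) :=
  inferInstanceAs (FirstCountableTopology (ι → κ → A))

variable {ι κ : Type} [Fintype ι] [Fintype κ]

/-- Gram matrices are positive elements of the C*-algebra of matrices. -/
theorem gram_nonneg [DecidableEq ι] [PartialOrder A] [StarOrderedRing A] (y : Matrix κ ι A) :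
    (0 : CStarMatrix ι ι A) ≤ CStarMatrix.ofMatrix (yᴴ * y) := by
  rcases isEmpty_or_nonempty ι with hι | ⟨⟨i0⟩⟩
  · rw [show CStarMatrix.ofMatrix (yᴴ * y) = (0 : CStarMatrix ι ι A) from
      CStarMatrix.ext fun i => (hι.false i).elim]
  · have h : CStarMatrix.ofMatrix (yᴴ * y) = ∑ k : κ,
        star (CStarMatrix.ofMatrix (Matrix.of fun i j => if i = i0 then y k j else 0) :
          CStarMatrix ι ι A) *
        (CStarMatrix.ofMatrix (Matrix.of fun i j => if i = i0 then y k j else 0) :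
          CStarMatrix ι ι A) := by
      have hsum : ∀ (s : Finset κ) (g : κ → CStarMatrix ι ι A) (i j : ι),
          (∑ k ∈ s, g k) i j = ∑ k ∈ s, g k i j := by
        intro s g i j
        classical
        induction s using Finset.induction_on with
        | empty => simp
        | insert k s hk ih => rw [Finset.sum_insert hk, Finset.sum_insert hk,
            CStarMatrix.add_apply, ih]
      apply CStarMatrix.ext
      intro i j
      rw [hsum]
      simp only [CStarMatrix.ofMatrix_apply, Matrix.mul_apply, Matrix.conjTranspose_apply]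
      apply Finset.sum_congr rfl
      intro k _
      rw [CStarMatrix.mul_apply, Finset.sum_eq_single i0]
      · simp [CStarMatrix.star_apply, CStarMatrix.ofMatrix_apply]
      · intro l _ hl
        simp [CStarMatrix.ofMatrix_apply, hl]
      · intro h
        exact absurd (Finset.mem_univ _) h
    rw [h]
    exact Finset.sum_nonneg fun k _ => star_mul_self_nonneg _

/-- a positive matrix is the square of a self-adjoint matrix. -/
theorem exists_sqrt_matrix (y : Matrix κ ι A) : ∃ c : Matrix ι ι A, cᴴ = c ∧ yᴴ * y = c * c := by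
  classical
  let _ := CStarAlgebra.spectralOrder A
  have _ := CStarAlgebra.spectralOrderedRing A
  obtain ⟨c, h1, h2⟩ := exists_sqrt_abs _ (gram_nonneg y)
  exact ⟨CStarMatrix.ofMatrix.symm c, h1, h2⟩

/-- Gram matrices of rectangular matrices are Gram matrices of square matrices. -/
theorem gram_square (y : Matrix κ ι A) : ∃ x : Matrix ι ι A, yᴴ * y = xᴴ * x := by
  obtain ⟨c, h1, h2⟩ := exists_sqrt_matrix y
  exact ⟨c, by rw [h1, h2]⟩

/-- A family of matrices with small Gram matrices is small. -/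
theorem tendsto_of_gram [DecidableEq ι] [PartialOrder A] [StarOrderedRing A]
    (w : ℕ → Matrix ι κ A) (y : Matrix ι κ A) (ε : ℕ → ℝ)
    (hε : Tendsto ε atTop (𝓝 0))
    (h : ∀ n, ‖(CStarMatrix.ofMatrix ((w n - y) * (w n - y)ᴴ) : CStarMatrix ι ι A)‖ ≤ ε n) :
    Tendsto w atTop (𝓝 y) := by
  refine tendsto_pi_nhds.mpr fun i => tendsto_pi_nhds.mpr fun j => ?_
  rw [tendsto_iff_norm_sub_tendsto_zero]
  have h1 : ∀ n, ‖w n i j - y i j‖ ≤ √(ε n) := by
    intro n
    apply Real.le_sqrt_of_sq_le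
    have h2 := norm_entry_sq_le (w n - y)ᴴ j i
    rw [Matrix.conjTranspose_conjTranspose, Matrix.conjTranspose_apply, norm_star] at h2
    have h3 := CStarMatrix.norm_entry_le_norm
      (M := (CStarMatrix.ofMatrix ((w n - y) * (w n - y)ᴴ) : CStarMatrix ι ι A)) (i := i) (j := i)
    rw [Matrix.sub_apply] at h2
    exact (h2.trans h3).trans (h n)
  refine squeeze_zero (fun n => norm_nonneg _) h1 ?_
  have := (Real.continuous_sqrt.tendsto 0).comp hε
  rw [Real.sqrt_zero] at this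
  exact this

theorem gram_nonneg' [DecidableEq ι] [PartialOrder A] [StarOrderedRing A] (y : Matrix ι κ A) :
    (0 : CStarMatrix ι ι A) ≤ CStarMatrix.ofMatrix (y * yᴴ) := by
  have := gram_nonneg (yᴴ)
  rwa [Matrix.conjTranspose_conjTranspose] at this

/-- resolvents of Gram matrices, as plain matrices. -/
theorem exists_resolvent_gram [DecidableEq ι] [PartialOrder A] [StarOrderedRing A]
    (y : Matrix ι κ A) (ε : ℝ) (hε : 0 < ε) :
    ∃ q : Matrix ι ι A, qᴴ = q ∧ q * (y * yᴴ) = (y * yᴴ) * q ∧ q * (y * yᴴ) + ε • q = 1 ∧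
      ‖(CStarMatrix.ofMatrix q : CStarMatrix ι ι A)‖ ≤ ε⁻¹ ∧
      ‖(CStarMatrix.ofMatrix ((y * yᴴ) * q) : CStarMatrix ι ι A)‖ ≤ 1 :=
  exists_resolvent _ (gram_nonneg' y) ε hε

/-- the defect of the resolvent approximation. -/
theorem tendsto_defect [DecidableEq ι] [PartialOrder A] [StarOrderedRing A] (y : Matrix ι κ A)
    (ε : ℕ → ℝ) (hε : ∀ n, 0 < ε n) (hε' : Tendsto ε atTop (𝓝 0)) (q : ℕ → Matrix ι ι A)
    (hq1 : ∀ n, (q n)ᴴ = q n)
    (hq4 : ∀ n, ‖(CStarMatrix.ofMatrix (q n) : CStarMatrix ι ι A)‖ ≤ (ε n)⁻¹)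
    (hq5 : ∀ n, ‖(CStarMatrix.ofMatrix ((y * yᴴ) * q n) : CStarMatrix ι ι A)‖ ≤ 1) :
    Tendsto (fun n => ε n • (q n * y)) atTop (𝓝 0) := by
  apply tendsto_of_gram _ _ ε hε'
  intro n
  have e : (ε n • (q n * y) - 0) * (ε n • (q n * y) - 0)ᴴ =
      (ε n) ^ 2 • (q n * ((y * yᴴ) * q n)) := by
    rw [sub_zero, Matrix.conjTranspose_smul, Matrix.conjTranspose_mul, hq1, Matrix.smul_mul,
      Matrix.mul_smul, smul_smul, star_trivial, sq]
    simp only [Matrix.mul_assoc]
  rw [e]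
  have h1 : ‖(CStarMatrix.ofMatrix (q n * ((y * yᴴ) * q n)) : CStarMatrix ι ι A)‖ ≤
      (ε n)⁻¹ * 1 := by
    refine (norm_mul_le (CStarMatrix.ofMatrix (q n) : CStarMatrix ι ι A)
      (CStarMatrix.ofMatrix ((y * yᴴ) * q n))).trans ?_
    exact mul_le_mul (hq4 n) (hq5 n) (norm_nonneg _) (inv_nonneg.mpr (hε n).le)
  have h2 : ‖(CStarMatrix.ofMatrix ((ε n) ^ 2 • (q n * ((y * yᴴ) * q n))) :
      CStarMatrix ι ι A)‖ = (ε n) ^ 2 *
      ‖(CStarMatrix.ofMatrix (q n * ((y * yᴴ) * q n)) : CStarMatrix ι ι A)‖ := by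
    have h3 : (CStarMatrix.ofMatrix ((ε n) ^ 2 • (q n * ((y * yᴴ) * q n))) :
        CStarMatrix ι ι A) = (((ε n) ^ 2 : ℝ) : ℂ) •
        (CStarMatrix.ofMatrix (q n * ((y * yᴴ) * q n)) : CStarMatrix ι ι A) := by
      apply CStarMatrix.ext
      intro i j
      rw [CStarMatrix.smul_apply, CStarMatrix.ofMatrix_apply, CStarMatrix.ofMatrix_apply,
        Matrix.smul_apply, Complex.coe_smul]
    rw [h3, norm_smul, Complex.norm_real, Real.norm_of_nonneg (by positivity)]
  rw [h2]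
  calc (ε n) ^ 2 * _ ≤ (ε n) ^ 2 * ((ε n)⁻¹ * 1) := by gcongr
    _ = ε n := by
      have := (hε n).ne'
      field_simp

/-- `y` is a limit of elements `(y yᴴ) z`. -/
theorem mem_closure_gram (y : Matrix ι κ A) :
    y ∈ closure (Set.range fun z : Matrix ι κ A => (y * yᴴ) * z) := by
  classical
  let _ := CStarAlgebra.spectralOrder A
  have _ := CStarAlgebra.spectralOrderedRing A
  have hex := fun n : ℕ => exists_resolvent_gram y (1 / ((n : ℝ) + 1)) (by positivity)
  choose q hq1 hq2 hq3 hq4 hq5 using hex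
  rw [mem_closure_iff_seq_limit]
  refine ⟨fun n => (y * yᴴ) * (q n * y), fun n => ⟨_, rfl⟩, ?_⟩
  have h1 := tendsto_defect y (fun n => 1 / ((n : ℝ) + 1)) (fun n => by positivity)
    tendsto_one_div_add_atTop_nhds_zero_nat q hq1 hq4 hq5
  have h2 : ∀ n, (y * yᴴ) * (q n * y) = y - (1 / ((n : ℝ) + 1)) • (q n * y) := by
    intro n
    have : (q n * (y * yᴴ) + (1 / ((n : ℝ) + 1)) • q n) * y = y := by rw [hq3, Matrix.one_mul]
    rw [Matrix.add_mul, Matrix.smul_mul, hq2, Matrix.mul_assoc (y * yᴴ)] at this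
    exact eq_sub_of_add_eq this
  have h3 := (tendsto_const_nhds (x := y)).sub h1
  rw [sub_zero] at h3
  refine h3.congr fun n => (h2 n).symm

omit [Fintype ι] [Fintype κ] in
theorem tendsto_matrix_zero (w : ℕ → Matrix ι κ A)
    (h : ∀ i j, Tendsto (fun n => ‖w n i j‖) atTop (𝓝 0)) : Tendsto w atTop (𝓝 0) := by
  refine tendsto_pi_nhds.mpr fun i => tendsto_pi_nhds.mpr fun j => ?_
  exact tendsto_zero_iff_norm_tendsto_zero.mpr (h i j)

/-- norm convergence in the C*-algebra of matrices gives convergence of matrices. -/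
theorem tendsto_zero_of_norm [DecidableEq ι] [PartialOrder A] [StarOrderedRing A]
    (w : ℕ → Matrix ι ι A) (ε : ℕ → ℝ) (hε : Tendsto ε atTop (𝓝 0))
    (h : ∀ n, ‖(CStarMatrix.ofMatrix (w n) : CStarMatrix ι ι A)‖ ≤ ε n) :
    Tendsto w atTop (𝓝 0) := by
  refine tendsto_matrix_zero _ fun i j => ?_
  refine squeeze_zero (fun n => norm_nonneg _) (fun n => ?_) hε
  have h3 := CStarMatrix.norm_entry_le_norm
    (M := (CStarMatrix.ofMatrix (w n) : CStarMatrix ι ι A)) (i := i) (j := j)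
  exact h3.trans (h n)

/-- `x xᴴ` is Cuntz-below `xᴴ x`. -/
theorem csub_swap (x : Matrix ι κ A) : CSub (x * xᴴ) (xᴴ * x) := by
  classical
  let _ := CStarAlgebra.spectralOrder A
  have _ := CStarAlgebra.spectralOrderedRing A
  have hex : ∀ n : ℕ, ∃ s : Matrix κ κ A, sᴴ = s ∧
      s * (xᴴ * x) * s + (1 / ((n : ℝ) + 1)) • (s * s) = 1 ∧
      ‖(CStarMatrix.ofMatrix (s * (xᴴ * x) * s) : CStarMatrix κ κ A)‖ ≤ 1 := by
    intro n
    obtain ⟨s, h1, h2, h3, -⟩ := exists_sqrt_resolvent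
      (CStarMatrix.ofMatrix (xᴴ * x) : CStarMatrix κ κ A) (gram_nonneg x) (1 / ((n : ℝ) + 1))
      (by positivity)
    exact ⟨s, h1, h2, h3⟩
  choose s hs1 hs2 hs3 using hex
  unfold CSub
  rw [mem_closure_iff_seq_limit]
  refine ⟨fun n => x * s n * (xᴴ * x) * (x * s n)ᴴ, fun n => ⟨x * s n, rfl⟩, ?_⟩
  have h1 : ∀ n, x * s n * (xᴴ * x) * (x * s n)ᴴ =
      x * xᴴ - (1 / ((n : ℝ) + 1)) • ((x * s n) * (x * s n)ᴴ) := by
    intro n
    have e1 : x * s n * (xᴴ * x) * (x * s n)ᴴ = x * (s n * (xᴴ * x) * s n) * xᴴ := by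
      rw [Matrix.conjTranspose_mul, hs1]
      simp only [Matrix.mul_assoc]
    have e2 : (x * s n) * (x * s n)ᴴ = x * (s n * s n) * xᴴ := by
      rw [Matrix.conjTranspose_mul, hs1]
      simp only [Matrix.mul_assoc]
    have e3 : s n * (xᴴ * x) * s n = 1 - (1 / ((n : ℝ) + 1)) • (s n * s n) :=
      eq_sub_of_add_eq (hs2 n)
    rw [e1, e2, e3, Matrix.mul_sub, Matrix.sub_mul, Matrix.mul_one, Matrix.mul_smul,
      Matrix.smul_mul]
  have h2 : Tendsto (fun n : ℕ => (1 / ((n : ℝ) + 1)) • ((x * s n) * (x * s n)ᴴ)) atTop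
      (𝓝 0) := by
    have hb : ∀ n i j, ‖(x * s n) i j‖ ≤ 1 := by
      intro n i j
      have k1 := norm_entry_sq_le (x * s n) i j
      have k2 : (x * s n)ᴴ * (x * s n) = s n * (xᴴ * x) * s n := by
        rw [Matrix.conjTranspose_mul, hs1]
        simp only [Matrix.mul_assoc]
      rw [k2] at k1
      have k3 := CStarMatrix.norm_entry_le_norm
        (M := (CStarMatrix.ofMatrix (s n * (xᴴ * x) * s n) : CStarMatrix κ κ A)) (i := j) (j := j)
      have k4 := (k1.trans k3).trans (hs3 n)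
      nlinarith [norm_nonneg ((x * s n) i j)]
    refine tendsto_matrix_zero _ fun i j => ?_
    have h0 : Tendsto (fun n : ℕ => (1 / ((n : ℝ) + 1)) * (Fintype.card κ : ℝ)) atTop (𝓝 0) := by
      have := tendsto_one_div_add_atTop_nhds_zero_nat (𝕜 := ℝ)
      simpa using this.mul_const (Fintype.card κ : ℝ)
    refine squeeze_zero (fun n => norm_nonneg _) (fun n => ?_) h0
    rw [Matrix.smul_apply, norm_smul, Real.norm_of_nonneg (by positivity), Matrix.mul_apply]
    gcongr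
    refine (norm_sum_le _ _).trans ?_
    calc ∑ k, ‖(x * s n) i k * (x * s n)ᴴ k j‖ ≤ ∑ k : κ, (1 : ℝ) := by
          apply Finset.sum_le_sum
          intro k _
          rw [Matrix.conjTranspose_apply]
          refine (norm_mul_le _ _).trans ?_
          rw [norm_star]
          exact mul_le_one₀ (hb n i k) (norm_nonneg _) (hb n j k)
      _ = Fintype.card κ := by simp
  have h3 := (tendsto_const_nhds (x := x * xᴴ)).sub h2
  rw [sub_zero] at h3
  exact h3.congr fun n => (h1 n).symm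

/-- Sylvester's triangular relation, in closed form. -/
theorem mem_closure_tri {ι' κ' : Type} [Fintype ι'] [Fintype κ'] (x : Matrix ι κ A)
    (z : Matrix ι κ' A) (y : Matrix ι' κ' A) :
    Matrix.fromBlocks x 0 0 y ∈ closure (Set.range
      fun p : Matrix (ι ⊕ ι') (ι ⊕ ι') A × Matrix (κ ⊕ κ') (κ ⊕ κ') A =>
        p.1 * Matrix.fromBlocks x z 0 y * p.2) := by
  classical
  let _ := CStarAlgebra.spectralOrder A
  have _ := CStarAlgebra.spectralOrderedRing A
  have hex := fun n : ℕ => exists_resolvent_gram x (1 / ((n : ℝ) + 1)) (by positivity)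
  choose r hr1 hr2 hr3 hr4 hr5 using hex
  have hex' := fun n : ℕ => exists_resolvent_gram x ((1 / ((n : ℝ) + 1)) ^ 2) (by positivity)
  choose q hq1 hq2 hq3 hq4 hq5 using hex'
  rw [mem_closure_iff_seq_limit]
  refine ⟨fun n => Matrix.fromBlocks ((x * xᴴ) * r n) 0 0 1 * Matrix.fromBlocks x z 0 y *
    Matrix.fromBlocks 1 (-(xᴴ * (q n * z))) 0 1, fun n => ⟨(_, _), rfl⟩, ?_⟩
  have h1 := tendsto_defect x (fun n => 1 / ((n : ℝ) + 1)) (fun n => by positivity)
    tendsto_one_div_add_atTop_nhds_zero_nat r hr1 hr4 hr5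
  have h2 : ∀ n, ((x * xᴴ) * r n) * x = x - (1 / ((n : ℝ) + 1)) • (r n * x) := by
    intro n
    have : (r n * (x * xᴴ) + (1 / ((n : ℝ) + 1)) • r n) * x = x := by rw [hr3, Matrix.one_mul]
    rw [Matrix.add_mul, Matrix.smul_mul, hr2] at this
    exact eq_sub_of_add_eq this
  have h3 : Tendsto (fun n => ((x * xᴴ) * r n) * x) atTop (𝓝 x) := by
    have h3 := (tendsto_const_nhds (x := x)).sub h1
    rw [sub_zero] at h3
    exact h3.congr fun n => (h2 n).symm
  have h4 : ∀ n, z - (x * xᴴ) * (q n * z) = ((1 / ((n : ℝ) + 1)) ^ 2) • (q n * z) := by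
    intro n
    have : (q n * (x * xᴴ) + ((1 / ((n : ℝ) + 1)) ^ 2) • q n) * z = z := by
      rw [hq3, Matrix.one_mul]
    rw [Matrix.add_mul, Matrix.smul_mul, hq2, Matrix.mul_assoc (x * xᴴ)] at this
    rw [sub_eq_iff_eq_add', this]
  have h5 : Tendsto (fun n : ℕ => ((1 / ((n : ℝ) + 1)) ^ 2) • (((x * xᴴ) * r n) * q n)) atTop
      (𝓝 0) := by
    apply tendsto_zero_of_norm _ (fun n => 1 / ((n : ℝ) + 1))
      tendsto_one_div_add_atTop_nhds_zero_nat
    intro n
    have k1 : ((x * xᴴ) * r n) * q n = r n * ((x * xᴴ) * q n) := by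
      rw [← hr2, Matrix.mul_assoc]
    have k2 : (CStarMatrix.ofMatrix (((1 / ((n : ℝ) + 1)) ^ 2) • (((x * xᴴ) * r n) * q n)) :
        CStarMatrix ι ι A) = (((1 / ((n : ℝ) + 1)) ^ 2 : ℝ) : ℂ) •
        ((CStarMatrix.ofMatrix (r n) : CStarMatrix ι ι A) *
          CStarMatrix.ofMatrix ((x * xᴴ) * q n)) := by
      rw [k1]
      apply CStarMatrix.ext
      intro i j
      rw [CStarMatrix.smul_apply, CStarMatrix.ofMatrix_apply, Matrix.smul_apply, Complex.coe_smul]
      rfl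
    rw [k2, norm_smul, Complex.norm_real, Real.norm_of_nonneg (by positivity)]
    calc (1 / ((n : ℝ) + 1)) ^ 2 * ‖(CStarMatrix.ofMatrix (r n) : CStarMatrix ι ι A) *
          CStarMatrix.ofMatrix ((x * xᴴ) * q n)‖
        ≤ (1 / ((n : ℝ) + 1)) ^ 2 * ((1 / ((n : ℝ) + 1))⁻¹ * 1) := by
          gcongr
          refine (norm_mul_le _ _).trans ?_
          exact mul_le_mul (hr4 n) (hq5 n) (norm_nonneg _) (by positivity)
      _ = 1 / ((n : ℝ) + 1) := by
          field_simp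
  have h6 : Tendsto (fun n : ℕ => ((x * xᴴ) * r n) * (z - (x * xᴴ) * (q n * z))) atTop
      (𝓝 0) := by
    have hc : Continuous fun w : Matrix ι ι A => w * z :=
      continuous_id.matrix_mul continuous_const
    have := (hc.tendsto 0).comp h5
    rw [Matrix.zero_mul] at this
    refine this.congr fun n => ?_
    simp only [Function.comp_apply]
    rw [h4, Matrix.smul_mul, Matrix.mul_smul, Matrix.mul_assoc ((x * xᴴ) * r n)]
  have h7 : ∀ n, Matrix.fromBlocks ((x * xᴴ) * r n) (0 : Matrix ι ι' A) (0 : Matrix ι' ι A)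
      (1 : Matrix ι' ι' A) * Matrix.fromBlocks x z (0 : Matrix ι' κ A) y *
      Matrix.fromBlocks (1 : Matrix κ κ A) (-(xᴴ * (q n * z))) (0 : Matrix κ' κ A)
        (1 : Matrix κ' κ' A) =
      Matrix.fromBlocks (((x * xᴴ) * r n) * x)
        (((x * xᴴ) * r n) * (z - (x * xᴴ) * (q n * z))) 0 y := by
    intro n
    rw [Matrix.fromBlocks_multiply, Matrix.fromBlocks_multiply]
    congr 1
    · simp
    · simp only [Matrix.zero_mul, add_zero, Matrix.mul_one, Matrix.mul_neg, Matrix.mul_zero,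
        Matrix.mul_sub]
      rw [add_comm, ← sub_eq_add_neg]
      simp only [Matrix.mul_assoc]
    · simp
    · simp
  simp only [h7]
  rw [show Matrix.fromBlocks x 0 0 y =
    Matrix.fromBlocks x (0 : Matrix ι κ' A) (0 : Matrix ι' κ A) y from rfl]
  have hcont : Continuous fun w : Matrix ι κ A × Matrix ι κ' A =>
      Matrix.fromBlocks w.1 w.2 (0 : Matrix ι' κ A) y :=
    Continuous.matrix_fromBlocks continuous_fst continuous_snd continuous_const continuous_const
  exact (hcont.tendsto (x, 0)).comp (h3.prodMk_nhds h6)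

end matrices

end Pool.Agent.H53.DF
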