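import Mathlib

set_option autoImplicit false

/-!
# Dimension functions and rank functions: definitions

`A` is a unital C*-algebra.  A rank function is a function on all rectangular matrices over
arbitrary finite index types.
-/

namespace Pool.Agent.H53.DF

open scoped Matrix
open Topology

variable {A : Type} [CStarAlgebra A]

/-- Cuntz subequivalence for square matrices over arbitrary finite index types. -/
def CSub {ι κ : Type} [Fintype ι] [Fintype κ] (a : Matrix ι ι A) (b : Matrix κ κ A) : Prop :=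
  a ∈ closure (Set.range fun x : Matrix ι κ A => x * b * xᴴ)

/-- a dimension function (unnormalized), in the format of the frozen statement. -/
structure IsDim (d : (n : ℕ) → Matrix (Fin n) (Fin n) A → ℝ) : Prop where
  nonneg : ∀ (n : ℕ) (a : Matrix (Fin n) (Fin n) A),
    (∃ x : Matrix (Fin n) (Fin n) A, a = xᴴ * x) → 0 ≤ d n a
  add : ∀ (n m : ℕ) (a : Matrix (Fin n) (Fin n) A) (b : Matrix (Fin m) (Fin m) A),
    (∃ x : Matrix (Fin n) (Fin n) A, a = xᴴ * x) → (∃ x : Matrix (Fin m) (Fin m) A, b = xᴴ * x) →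
      d (n + m) (Matrix.reindex finSumFinEquiv finSumFinEquiv
        (Matrix.fromBlocks a 0 0 b)) = d n a + d m b
  mono : ∀ (n m : ℕ) (a : Matrix (Fin n) (Fin n) A) (b : Matrix (Fin m) (Fin m) A),
    (∃ x : Matrix (Fin n) (Fin n) A, a = xᴴ * x) → (∃ x : Matrix (Fin m) (Fin m) A, b = xᴴ * x) →
    (∃ x : ℕ → Matrix (Fin n) (Fin m) A,
      Filter.Tendsto (fun k => x k * b * (x k)ᴴ) Filter.atTop (nhds a)) → d n a ≤ d m b

/-- additive monotone functions on rectangular matrices. -/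
structure IsRk (r : (ι κ : Type) → Matrix ι κ A → ℝ) : Prop where
  nonneg : ∀ {ι κ : Type} [Fintype ι] [Fintype κ] (x : Matrix ι κ A), 0 ≤ r ι κ x
  mul_le : ∀ {ι κ ι' κ' : Type} [Fintype ι] [Fintype κ] [Fintype ι'] [Fintype κ']
    (y : Matrix ι' ι A) (x : Matrix ι κ A) (z : Matrix κ κ' A), r ι' κ' (y * x * z) ≤ r ι κ x
  add : ∀ {ι κ ι' κ' : Type} [Fintype ι] [Fintype κ] [Fintype ι'] [Fintype κ']
    (x : Matrix ι κ A) (y : Matrix ι' κ' A),
    r (ι ⊕ ι') (κ ⊕ κ') (Matrix.fromBlocks x 0 0 y) = r ι κ x + r ι' κ' y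

/-- rank functions that are monotone for the closed relation and satisfy Sylvester's triangular
inequality. -/
structure IsRkTop (r : (ι κ : Type) → Matrix ι κ A → ℝ) : Prop extends IsRk r where
  clos : ∀ {ι κ ι' κ' : Type} [Fintype ι] [Fintype κ] [Fintype ι'] [Fintype κ']
    (x : Matrix ι' κ' A) (b : Matrix ι κ A),
    x ∈ closure (Set.range fun p : Matrix ι' ι A × Matrix κ κ' A => p.1 * b * p.2) →
      r ι' κ' x ≤ r ι κ b
  tri : ∀ {ι κ ι' κ' : Type} [Fintype ι] [Fintype κ] [Fintype ι'] [Fintype κ']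
    (x : Matrix ι κ A) (z : Matrix ι κ' A) (y : Matrix ι' κ' A),
    r ι κ x + r ι' κ' y ≤ r (ι ⊕ ι') (κ ⊕ κ') (Matrix.fromBlocks x z 0 y)

end Pool.Agent.H53.DF
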