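import Pool.Agent.H53.DF.Rank
import Pool.Agent.H42.BH.Rank

set_option autoImplicit false

/-!
# Bridge: every dimension function comes from a closed rank function
-/

namespace Pool.Agent.H53.DF

open scoped Matrix
open Topology Filter

variable {A : Type} [CStarAlgebra A]

/-- **Every dimension function comes from a closed additive rank function.** -/
theorem exists_rkFun (d : (n : ℕ) → Matrix (Fin n) (Fin n) A → ℝ) (hd : IsDim d) :
    ∃ r : H42.BH.RkFun A, H42.BH.IsDim r ∧
      ∀ (n : ℕ) (a : Matrix (Fin n) (Fin n) A), (∃ x : Matrix (Fin n) (Fin n) A, a = xᴴ * x) →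
        r (Fin n) (Fin n) a = d n a := by
  have h := isRkTop_rk hd
  refine ⟨fun m n _ _ x => rk d m n x, ⟨⟨h.nonneg, h.mul_le, h.add⟩, ?_⟩, ?_⟩
  · intro m n m' n' _ _ _ _ T U hTU
    refine h.clos U T (closure_mono ?_ hTU)
    rintro _ ⟨X, Y, rfl⟩
    exact ⟨(X, Y), rfl⟩
  · intro n a ha
    exact rk_pos hd a ha

end Pool.Agent.H53.DF
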