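import Pool.Agent.H53.DF.Approx

set_option autoImplicit false

/-!
# Dimension functions give rank functions
-/

namespace Pool.Agent.H53.DF

open scoped Matrix
open Topology Filter

variable {A : Type} [CStarAlgebra A]

section csub

variable {ι κ ι' κ' μ : Type} [Fintype ι] [Fintype κ] [Fintype ι'] [Fintype κ'] [Fintype μ]

theorem CSub.conj (b : Matrix κ κ A) (x : Matrix ι κ A) : CSub (x * b * xᴴ) b :=
  subset_closure ⟨x, rfl⟩

theorem CSub.refl (b : Matrix κ κ A) : CSub b b := by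
  classical
  have := CSub.conj b (1 : Matrix κ κ A)
  simpa using this

theorem CSub.of_mem_closure {a : Matrix ι ι A} {b : Matrix κ κ A} {S : Set (Matrix ι ι A)}
    (ha : a ∈ closure S) (hS : ∀ s ∈ S, CSub s b) : CSub a b := by
  have h1 : closure S ⊆ closure (Set.range fun x : Matrix ι κ A => x * b * xᴴ) :=
    closure_minimal hS isClosed_closure
  exact h1 ha

theorem continuous_conj (x : Matrix ι κ A) :
    Continuous fun b : Matrix κ κ A => x * b * xᴴ :=
  (continuous_const.matrix_mul continuous_id).matrix_mul continuous_const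

theorem CSub.trans {a : Matrix ι ι A} {b : Matrix κ κ A} {c : Matrix μ μ A}
    (h1 : CSub a b) (h2 : CSub b c) : CSub a c := by
  refine CSub.of_mem_closure h1 ?_
  rintro _ ⟨x, rfl⟩
  have := map_mem_closure (continuous_conj x) h2 (t := Set.range fun z : Matrix ι μ A => z * c * zᴴ)
    (by
      rintro _ ⟨y, rfl⟩
      refine ⟨x * y, ?_⟩
      simp only [Matrix.conjTranspose_mul, Matrix.mul_assoc])
  exact this

/-- Gram matrices of two-sided multiples. -/
theorem csub_of_mul (y : Matrix ι' ι A) (b : Matrix ι κ A) (z : Matrix κ κ' A) :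
    CSub ((y * b * z) * (y * b * z)ᴴ) (b * bᴴ) := by
  have h1 := csub_swap (y * b * z)
  have h2 : CSub ((y * b * z)ᴴ * (y * b * z)) ((y * b)ᴴ * (y * b)) := by
    have := CSub.conj ((y * b)ᴴ * (y * b)) zᴴ
    rw [Matrix.conjTranspose_conjTranspose] at this
    have e : (y * b * z)ᴴ * (y * b * z) = zᴴ * ((y * b)ᴴ * (y * b)) * z := by
      rw [Matrix.conjTranspose_mul (y * b) z]
      simp only [Matrix.mul_assoc]
    rwa [e]
  have h3 : CSub ((y * b)ᴴ * (y * b)) ((y * b) * (y * b)ᴴ) := by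
    have := csub_swap (y * b)ᴴ
    rwa [Matrix.conjTranspose_conjTranspose] at this
  have h4 : CSub ((y * b) * (y * b)ᴴ) (b * bᴴ) := by
    have := CSub.conj (b * bᴴ) y
    have e : (y * b) * (y * b)ᴴ = y * (b * bᴴ) * yᴴ := by
      rw [Matrix.conjTranspose_mul]
      simp only [Matrix.mul_assoc]
    rwa [e]
  exact ((h1.trans h2).trans h3).trans h4

theorem continuous_gram : Continuous fun x : Matrix ι κ A => x * xᴴ :=
  continuous_id.matrix_mul continuous_id.matrix_conjTranspose

/-- the closed relation between rectangular matrices. -/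
theorem csub_gram_of_mem_closure (x : Matrix ι' κ' A) (b : Matrix ι κ A)
    (h : x ∈ closure (Set.range fun p : Matrix ι' ι A × Matrix κ κ' A => p.1 * b * p.2)) :
    CSub (x * xᴴ) (b * bᴴ) := by
  refine CSub.of_mem_closure (S := Set.range fun p : Matrix ι' ι A × Matrix κ κ' A =>
    (p.1 * b * p.2) * (p.1 * b * p.2)ᴴ) ?_ ?_
  · refine map_mem_closure (f := fun x : Matrix ι' κ' A => x * xᴴ) continuous_gram h ?_
    rintro _ ⟨p, rfl⟩
    exact ⟨p, rfl⟩
  · rintro _ ⟨p, rfl⟩
    exact csub_of_mul _ _ _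

theorem csub_submatrix (a : Matrix κ κ A) (e : ι → κ) : CSub (a.submatrix e e) a := by
  classical
  have := CSub.conj a ((1 : Matrix κ κ A).submatrix e id)
  have h : ((1 : Matrix κ κ A).submatrix e id) * a * ((1 : Matrix κ κ A).submatrix e id)ᴴ =
      a.submatrix e e := by
    ext i j
    simp [Matrix.mul_apply, Matrix.submatrix_apply, Matrix.one_apply, Matrix.conjTranspose_apply]
  rwa [h] at this

theorem csub_submatrix' (a : Matrix κ κ A) (e : ι ≃ κ) : CSub a (a.submatrix e e) := by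
  have := csub_submatrix (a.submatrix e e) e.symm
  simpa using this

end csub

section dd

variable {d : (n : ℕ) → Matrix (Fin n) (Fin n) A → ℝ}

/-- positive matrices. -/
def Pos {ι : Type} [Fintype ι] (a : Matrix ι ι A) : Prop := ∃ x : Matrix ι ι A, a = xᴴ * x

theorem Pos.gram {ι κ : Type} [Fintype ι] [Fintype κ] (x : Matrix ι κ A) : Pos (x * xᴴ) := by
  obtain ⟨y, hy⟩ := gram_square xᴴ
  rw [Matrix.conjTranspose_conjTranspose] at hy
  exact ⟨y, hy⟩

theorem Pos.submatrix {ι κ : Type} [Fintype ι] [Fintype κ] {a : Matrix κ κ A} (ha : Pos a)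
    (e : ι ≃ κ) : Pos (a.submatrix e e) := by
  obtain ⟨x, rfl⟩ := ha
  refine ⟨x.submatrix e e, ?_⟩
  rw [Matrix.conjTranspose_submatrix, Matrix.submatrix_mul_equiv]

/-- the dimension function on matrices over arbitrary finite index types. -/
noncomputable def dd (d : (n : ℕ) → Matrix (Fin n) (Fin n) A → ℝ) {ι : Type} [Fintype ι]
    (a : Matrix ι ι A) : ℝ :=
  d (Fintype.card ι) (a.submatrix (Fintype.equivFin ι).symm (Fintype.equivFin ι).symm)

theorem IsDim.mono' (hd : IsDim d) {n m : ℕ} {a : Matrix (Fin n) (Fin n) A}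
    {b : Matrix (Fin m) (Fin m) A} (ha : Pos a) (hb : Pos b) (h : CSub a b) : d n a ≤ d m b := by
  unfold CSub at h
  rw [mem_closure_iff_seq_limit] at h
  obtain ⟨y, hy, hlim⟩ := h
  choose x hx using hy
  refine hd.mono n m a b ha hb ⟨x, ?_⟩
  refine hlim.congr fun k => (hx k).symm

theorem IsDim.dd_mono (hd : IsDim d) {ι κ : Type} [Fintype ι] [Fintype κ] {a : Matrix ι ι A}
    {b : Matrix κ κ A} (ha : Pos a) (hb : Pos b) (h : CSub a b) : dd d a ≤ dd d b := by
  apply hd.mono' (ha.submatrix _) (hb.submatrix _)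
  exact ((csub_submatrix a _).trans h).trans (csub_submatrix' b _)

theorem IsDim.dd_fin (hd : IsDim d) {n : ℕ} {a : Matrix (Fin n) (Fin n) A} (ha : Pos a) :
    dd d a = d n a :=
  le_antisymm (hd.mono' (ha.submatrix _) ha (csub_submatrix a _))
    (hd.mono' ha (ha.submatrix _) (csub_submatrix' a _))

theorem IsDim.dd_congr (hd : IsDim d) {ι κ : Type} [Fintype ι] [Fintype κ] {a : Matrix ι ι A}
    {b : Matrix κ κ A} (ha : Pos a) (hb : Pos b) (h : CSub a b) (h' : CSub b a) :
    dd d a = dd d b :=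
  le_antisymm (hd.dd_mono ha hb h) (hd.dd_mono hb ha h')

theorem IsDim.dd_nonneg (hd : IsDim d) {ι : Type} [Fintype ι] {a : Matrix ι ι A} (ha : Pos a) :
    0 ≤ dd d a := hd.nonneg _ _ (ha.submatrix _)

theorem Pos.fromBlocks {ι κ : Type} [Fintype ι] [Fintype κ] {a : Matrix ι ι A}
    {b : Matrix κ κ A} (ha : Pos a) (hb : Pos b) : Pos (Matrix.fromBlocks a 0 0 b) := by
  obtain ⟨x, rfl⟩ := ha
  obtain ⟨y, rfl⟩ := hb
  refine ⟨Matrix.fromBlocks x 0 0 y, ?_⟩
  rw [Matrix.fromBlocks_conjTranspose, Matrix.fromBlocks_multiply]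
  simp

theorem IsDim.dd_add (hd : IsDim d) {ι κ : Type} [Fintype ι] [Fintype κ] {a : Matrix ι ι A}
    {b : Matrix κ κ A} (ha : Pos a) (hb : Pos b) :
    dd d (Matrix.fromBlocks a 0 0 b) = dd d a + dd d b := by
  set e := (Fintype.equivFin ι).symm
  set f := (Fintype.equivFin κ).symm
  have h1 : dd d a + dd d b = d (Fintype.card ι + Fintype.card κ)
      (Matrix.reindex finSumFinEquiv finSumFinEquiv
        (Matrix.fromBlocks (a.submatrix e e) 0 0 (b.submatrix f f))) :=
    (hd.add _ _ _ _ (ha.submatrix e) (hb.submatrix f)).symm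
  have h2 : Matrix.reindex finSumFinEquiv finSumFinEquiv
        (Matrix.fromBlocks (a.submatrix e e) 0 0 (b.submatrix f f)) =
      (Matrix.fromBlocks a 0 0 b).submatrix
        (finSumFinEquiv.symm.trans (Equiv.sumCongr e f))
        (finSumFinEquiv.symm.trans (Equiv.sumCongr e f)) := by
    rw [Matrix.reindex_apply]
    ext i j
    simp only [Matrix.submatrix_apply, Equiv.trans_apply]
    rcases finSumFinEquiv.symm i with i | i <;> rcases finSumFinEquiv.symm j with j | j <;> simp
  rw [h1, h2, ← hd.dd_fin ((ha.fromBlocks hb).submatrix _)]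
  exact hd.dd_congr (ha.fromBlocks hb) ((ha.fromBlocks hb).submatrix _)
    (csub_submatrix' _ _) (csub_submatrix _ _)

/-- the rank function of a dimension function. -/
noncomputable def rk (d : (n : ℕ) → Matrix (Fin n) (Fin n) A → ℝ) (ι κ : Type)
    (x : Matrix ι κ A) : ℝ := by
  classical
  exact if h : Finite ι ∧ Finite κ then
    letI := @Fintype.ofFinite ι h.1
    letI := @Fintype.ofFinite κ h.2
    dd d (x * xᴴ) else 0

theorem rk_eq (d : (n : ℕ) → Matrix (Fin n) (Fin n) A → ℝ) {ι κ : Type} [i1 : Fintype ι]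
    [i2 : Fintype κ] (x : Matrix ι κ A) : rk d ι κ x = dd d (x * xᴴ) := by
  have h : Finite ι ∧ Finite κ := ⟨inferInstance, inferInstance⟩
  unfold rk
  rw [dif_pos h]
  have e1 : @Fintype.ofFinite ι h.1 = i1 := Subsingleton.elim _ _
  have e2 : @Fintype.ofFinite κ h.2 = i2 := Subsingleton.elim _ _
  rw [e1, e2]

/-- **Dimension functions give Sylvester rank functions.** -/
theorem isRkTop_rk (hd : IsDim d) : IsRkTop (rk d) := by
  have hclos : ∀ {ι κ ι' κ' : Type} [Fintype ι] [Fintype κ] [Fintype ι'] [Fintype κ']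
    (x : Matrix ι' κ' A) (b : Matrix ι κ A),
    x ∈ closure (Set.range fun p : Matrix ι' ι A × Matrix κ κ' A => p.1 * b * p.2) →
      rk d ι' κ' x ≤ rk d ι κ b := by
    intro ι κ ι' κ' _ _ _ _ x b h
    rw [rk_eq, rk_eq]
    exact hd.dd_mono (Pos.gram _) (Pos.gram _) (csub_gram_of_mem_closure x b h)
  refine ⟨⟨?_, ?_, ?_⟩, hclos, ?_⟩
  · intro ι κ _ _ x
    rw [rk_eq]
    exact hd.dd_nonneg (Pos.gram _)
  · intro ι κ ι' κ' _ _ _ _ y x z
    exact hclos _ _ (subset_closure ⟨(y, z), rfl⟩)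
  · intro ι κ ι' κ' _ _ _ _ x y
    rw [rk_eq, rk_eq, rk_eq, ← hd.dd_add (Pos.gram _) (Pos.gram _)]
    congr 1
    rw [Matrix.fromBlocks_conjTranspose, Matrix.fromBlocks_multiply]
    simp
  · intro ι κ ι' κ' _ _ _ _ x z y
    have h1 : rk d ι κ x + rk d ι' κ' y = rk d (ι ⊕ ι') (κ ⊕ κ') (Matrix.fromBlocks x 0 0 y) := by
      rw [rk_eq, rk_eq, rk_eq, ← hd.dd_add (Pos.gram _) (Pos.gram _)]
      congr 1
      rw [Matrix.fromBlocks_conjTranspose, Matrix.fromBlocks_multiply]
      simp
    rw [h1]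
    exact hclos _ _ (mem_closure_tri x z y)

/-- the rank of a positive matrix is its dimension. -/
theorem rk_pos (hd : IsDim d) {n : ℕ} (a : Matrix (Fin n) (Fin n) A) (ha : Pos a) :
    rk d (Fin n) (Fin n) a = d n a := by
  rw [rk_eq, ← hd.dd_fin ha]
  obtain ⟨y, hy⟩ := ha
  have h1 : CSub (y * yᴴ) a := by
    rw [hy]; exact csub_swap y
  have h2 : CSub a (y * yᴴ) := by
    have := csub_swap yᴴ
    rw [Matrix.conjTranspose_conjTranspose] at this
    rwa [hy]
  have haH : aᴴ = a := by rw [hy]; simp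
  apply hd.dd_congr (Pos.gram _) ⟨y, hy⟩
  · -- a aᴴ = yᴴ (y yᴴ) y
    have e : a * aᴴ = yᴴ * (y * yᴴ) * yᴴᴴ := by
      rw [haH, hy, Matrix.conjTranspose_conjTranspose]
      simp only [Matrix.mul_assoc]
    rw [e]
    exact (CSub.conj _ _).trans h1
  · refine h2.trans ?_
    apply csub_gram_of_mem_closure
    have h3 := mem_closure_gram yᴴ
    rw [Matrix.conjTranspose_conjTranspose, ← hy] at h3
    have h4 := map_mem_closure (f := fun w : Matrix (Fin n) (Fin n) A => wᴴ)
      (continuous_id.matrix_conjTranspose) h3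
      (t := Set.range fun p : Matrix (Fin n) (Fin n) A × Matrix (Fin n) (Fin n) A => p.1 * a * p.2)
      (by
        rintro _ ⟨z, rfl⟩
        refine ⟨(zᴴ, 1), ?_⟩
        simp only [Matrix.mul_one, Matrix.conjTranspose_mul]
        rw [haH])
    simpa using h4

end dd

end Pool.Agent.H53.DF
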